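import Mathlib
import Pool.Agent.H67.FS.Targets

set_option autoImplicit false

/-!
# AG2: components of Fano schemes and unirational parametrisations (MP_6f7589_ag)
-/

namespace Pool.Agent.H18.FS

open Pool.Agent.H67.FS MvPolynomial

universe u

section Comp

variable {K : Type u} [Field K] {m n k : ℕ}

/-- every irreducible subset of the Fano scheme is contained in a component -/
lemma exists_component (r : ℕ) (T0 : Set (Gr K m n k)) (h0 : IsIrreducible T0)
    (h1 : T0 ⊆ Fano K m n k r) : ∃ Y, T0 ⊆ Y ∧ IsComponent K m n k r Y := by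
  obtain ⟨Y, hY, hm⟩ := zorn_subset_nonempty
    {T : Set (Gr K m n k) | T ⊆ Fano K m n k r ∧ IsIrreducible T} (by
      intro c hc hch hne
      refine ⟨⋃₀ c, ⟨Set.sUnion_subset fun s hs => (hc hs).1, ?_, ?_⟩,
        fun s hs => Set.subset_sUnion_of_mem hs⟩
      · obtain ⟨s, hs⟩ := hne
        obtain ⟨x, hx⟩ := (hc hs).2.1
        exact ⟨x, s, hs, hx⟩
      · rintro u v hu hv ⟨x, ⟨s, hs, hxs⟩, hxu⟩ ⟨y, ⟨t, ht, hyt⟩, hyv⟩
        rcases hch.total hs ht with hst | hst
        · obtain ⟨z, hz, hz'⟩ := (hc ht).2.2 u v hu hv ⟨x, hst hxs, hxu⟩ ⟨y, hyt, hyv⟩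
          exact ⟨z, ⟨t, ht, hz⟩, hz'⟩
        · obtain ⟨z, hz, hz'⟩ := (hc hs).2.2 u v hu hv ⟨x, hxs, hxu⟩ ⟨y, hst hyt, hyv⟩
          exact ⟨z, ⟨s, hs, hz⟩, hz'⟩) T0 ⟨h1, h0⟩
  exact ⟨Y, hY, hm⟩

/-- two frames with the same span differ by an invertible matrix -/
lemma exists_coeff (M M' : Frame K m n k) (h : spanMap K m n k M' = spanMap K m n k M) :
    ∃ g : Fin (k + 1) → Fin (k + 1) → K, LinearIndependent K g ∧
      ∀ l, M'.1 l = ∑ l', g l l' • M.1 l' := by
  have hs : Submodule.span K (Set.range M'.1) = Submodule.span K (Set.range M.1) :=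
    congrArg Subtype.val h
  have hmem : ∀ l, ∃ c : Fin (k + 1) → K, ∑ l', c l' • M.1 l' = M'.1 l := by
    intro l
    rw [← Submodule.mem_span_range_iff_exists_fun, ← hs]
    exact Submodule.subset_span ⟨l, rfl⟩
  choose g hg using hmem
  refine ⟨g, ?_, fun l => (hg l).symm⟩
  have h2 : LinearIndependent K ((Fintype.linearCombination K M.1) ∘ g) := by
    have : (Fintype.linearCombination K M.1) ∘ g = M'.1 := by
      funext l
      simp [Fintype.linearCombination_apply, hg l]
    rw [this]
    exact M'.2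
  exact h2.of_comp _

/-- the transformed frame -/
def trans (g : Fin (k + 1) → Fin (k + 1) → K) (hg : LinearIndependent K g)
    (M : Frame K m n k) : Frame K m n k :=
  ⟨fun l => ∑ l', g l l' • M.1 l', by
    have h := hg.map' (Fintype.linearCombination K M.1)
      (LinearMap.ker_eq_bot.2 M.2.fintypeLinearCombination_injective)
    exact h⟩

lemma trans_apply (g : Fin (k + 1) → Fin (k + 1) → K) (hg : LinearIndependent K g)
    (M : Frame K m n k) (l : Fin (k + 1)) : (trans g hg M).1 l = ∑ l', g l l' • M.1 l' := rfl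

lemma spanMap_trans (g : Fin (k + 1) → Fin (k + 1) → K) (hg : LinearIndependent K g)
    (M : Frame K m n k) : spanMap K m n k (trans g hg M) = spanMap K m n k M := by
  apply Subtype.ext
  change Submodule.span K (Set.range (trans g hg M).1) = Submodule.span K (Set.range M.1)
  apply Submodule.eq_of_le_of_finrank_eq
  · rw [Submodule.span_le]
    rintro _ ⟨l, rfl⟩
    rw [trans_apply]
    exact Submodule.sum_mem _ fun l' _ =>
      Submodule.smul_mem _ _ (Submodule.subset_span ⟨l', rfl⟩)
  · rw [finrank_span_eq_card (trans g hg M).2, finrank_span_eq_card M.2]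

/-- closed conditions on the Grassmannian -/
lemma isClosed_cond (f : MvPolynomial (Fin (k + 1) × Fin m × Fin n) K) :
    IsClosed {Λ : Gr K m n k | ∀ M : Frame K m n k, spanMap K m n k M = Λ →
      eval (fun s => M.1 s.1 s.2.1 s.2.2) f = 0} := by
  rw [isClosed_coinduced]
  refine (@isClosed_induced_iff _ _ (zariski K (Fin (k + 1) × Fin m × Fin n)) _ _).2
    ⟨{x | ∀ q ∈ {q : MvPolynomial (Fin (k + 1) × Fin m × Fin n) K |
      ∃ g : Fin (k + 1) → Fin (k + 1) → K, LinearIndependent K g ∧
        q = bind₁ (fun s => ∑ l', C (g s.1 l') * X (l', s.2)) f}, eval x q = 0}, ?_, ?_⟩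
  · rw [← @isOpen_compl_iff _ _ (zariski K (Fin (k + 1) × Fin m × Fin n))]
    change _ ∈ _
    rw [compl_compl]
    exact ⟨_, rfl⟩
  · ext M
    have key : ∀ g : Fin (k + 1) → Fin (k + 1) → K,
        eval (fun s : Fin (k + 1) × Fin m × Fin n => M.1 s.1 s.2.1 s.2.2)
          (bind₁ (fun s => ∑ l', C (g s.1 l') * X (l', s.2)) f) =
        eval (fun s : Fin (k + 1) × Fin m × Fin n => (∑ l', g s.1 l' • M.1 l') s.2.1 s.2.2) f := by
      intro g
      rw [← coe_aeval_eq_eval, ← coe_aeval_eq_eval]
      simp only [RingHom.coe_coe, aeval_bind₁]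
      congr 2
      funext s
      simp [Matrix.sum_apply]
    simp only [Set.mem_preimage, Set.mem_ofPred_eq]
    constructor
    · intro h M' hM'
      obtain ⟨g, hg, hgM⟩ := exists_coeff M M' hM'
      have := h _ ⟨g, hg, rfl⟩
      rw [key] at this
      simp only [hgM]
      exact this
    · rintro h _ ⟨g, hg, rfl⟩
      rw [key]
      exact h (trans g hg M) (spanMap_trans g hg M)

/-- the polynomial frame with a generic change of basis -/
noncomputable def AP {N N' : ℕ} (e : (Fin (k + 1) × Fin (k + 1)) ⊕ Fin N ≃ Fin N')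
    (Q : Fin (k + 1) → Matrix (Fin m) (Fin n) (MvPolynomial (Fin N) K)) (l : Fin (k + 1)) :
    Matrix (Fin m) (Fin n) (MvPolynomial (Fin N') K) :=
  fun i j => ∑ l', X (e (Sum.inl (l, l'))) * rename (fun t => e (Sum.inr t)) (Q l' i j)

lemma eval_AP {N N' : ℕ} (e : (Fin (k + 1) × Fin (k + 1)) ⊕ Fin N ≃ Fin N')
    (Q : Fin (k + 1) → Matrix (Fin m) (Fin n) (MvPolynomial (Fin N) K)) (l : Fin (k + 1))
    (p : Fin N' → K) (i : Fin m) (j : Fin n) :
    eval p (AP e Q l i j) =
      ∑ l', p (e (Sum.inl (l, l'))) * eval (fun t => p (e (Sum.inr t))) (Q l' i j) := by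
  simp only [AP, map_sum, map_mul, eval_X, eval_rename]
  rfl

/-- minors and linear independence of matrices -/
lemma minor_frame (hM : T_MINOR.{u}) (A : Fin (k + 1) → Matrix (Fin m) (Fin n) K) :
    LinearIndependent K A ↔ ∃ (f : Fin (k + 1) → Fin (k + 1)) (g : Fin (k + 1) → Fin m × Fin n),
      (Matrix.det (fun a b => A (f a) (g b).1 (g b).2)) ≠ 0 := by
  have h := hM K (Fin (k + 1)) (Fin m × Fin n) (fun l s => A l s.1 s.2) (k + 1)
  have h2 : LinearIndependent K A ↔ k + 1 ≤
      Matrix.rank (fun l (s : Fin m × Fin n) => A l s.1 s.2 : Matrix _ _ K) := by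
    have h3 : LinearIndependent K A ↔
        LinearIndependent K (fun l (s : Fin m × Fin n) => A l s.1 s.2) := by
      have h4 : (fun l (s : Fin m × Fin n) => A l s.1 s.2) =
        (LinearEquiv.curry K K (Fin m) (Fin n)).symm ∘ A := by
        funext l s
        rfl
      rw [h4]
      exact (LinearMap.linearIndependent_iff
        (LinearEquiv.curry K K (Fin m) (Fin n)).symm.toLinearMap
        (LinearEquiv.ker _)).symm
    rw [h3]
    constructor
    · intro h5
      have := h5.rank_matrix (M := (fun l (s : Fin m × Fin n) => A l s.1 s.2 : Matrix _ _ K))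
      rw [this]
      simp
    · intro h5
      rw [linearIndependent_iff_card_le_finrank_span]
      rw [Matrix.rank_eq_finrank_span_row] at h5
      rw [Fintype.card_fin]
      exact h5
  rw [h2, h]
  rfl

end Comp

/-- AG2 -/
theorem ag2 (hM : T_MINOR.{u}) : T_AG2.{u} := by
  intro K _ _ m n k r S hS hSF
  have hcont : Continuous (spanMap K m n k) := continuous_coinduced_rng
  obtain ⟨Y, hY0, hY⟩ := exists_component r (spanMap K m n k '' S)
    (hS.image _ hcont.continuousOn) (by rintro _ ⟨M, hMS, rfl⟩; exact hSF M hMS)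
  refine ⟨Y, hY, ?_⟩
  rintro ⟨N, Q, ⟨Λ0, hΛ0⟩, hQY, hYc⟩
  obtain ⟨N', e⟩ : ∃ N' : ℕ, Nonempty ((Fin (k + 1) × Fin (k + 1)) ⊕ Fin N ≃ Fin N') :=
    ⟨_, ⟨Fintype.equivFin _⟩⟩
  obtain ⟨e⟩ := e
  have hinj : Function.Injective (algebraMap (MvPolynomial (Fin N') K)
    (FractionRing (MvPolynomial (Fin N') K))) := IsFractionRing.injective _ _
  refine ⟨N', fun l => (AP e Q l).map (algebraMap _ _), ?_, ?_⟩
  · -- rank
    intro x
    by_contra hcon
    rw [not_lt] at hcon
    obtain ⟨f, g, hfg⟩ := (hM _ _ _ _ r).1 hcon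
    set D : MvPolynomial (Fin N') K :=
      Matrix.det (fun a b => ∑ l, C (x l) * AP e Q l (f a) (g b)) with hD
    have hD0 : D ≠ 0 := by
      intro h0
      apply hfg
      have h1 : algebraMap (MvPolynomial (Fin N') K)
        (FractionRing (MvPolynomial (Fin N') K)) D = 0 := by rw [h0, map_zero]
      rw [hD, RingHom.map_det] at h1
      rw [← h1]
      congr 1
      ext a b
      simp only [Matrix.submatrix_apply, Matrix.sum_apply, Matrix.smul_apply, Matrix.map_apply,
        RingHom.mapMatrix_apply, map_sum, map_mul]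
      refine Finset.sum_congr rfl fun l _ => ?_
      rw [Algebra.smul_def]
      congr 1
    obtain ⟨t0, ht0, -⟩ := hΛ0
    obtain ⟨f', g', hfg'⟩ := (minor_frame hM _).1 ht0
    set E : MvPolynomial (Fin N) K :=
      Matrix.det (fun a b => Q (f' a) (g' b).1 (g' b).2) with hE
    have hevE : ∀ t : Fin N → K, eval t E =
        Matrix.det (fun a b => ((Q (f' a)).map (eval t)) (g' b).1 (g' b).2) := by
      intro t
      rw [hE, RingHom.map_det]
      rfl
    have hE0 : E ≠ 0 := by
      intro h0
      apply hfg'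
      rw [← hevE t0, h0, map_zero]
    have hDE : D * rename (fun t => e (Sum.inr t)) E ≠ 0 := by
      apply mul_ne_zero hD0
      intro h0
      apply hE0
      have hi : Function.Injective (fun t : Fin N => e (Sum.inr t)) :=
        e.injective.comp Sum.inr_injective
      exact rename_injective _ hi (by rw [h0, map_zero])
    apply hDE
    apply MvPolynomial.funext
    intro p
    rw [map_mul, map_zero, eval_rename]
    by_contra hne
    have hp1 := left_ne_zero_of_mul hne
    have hp2 : eval (fun t => p (e (Sum.inr t))) E ≠ 0 := right_ne_zero_of_mul hne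
    set t : Fin N → K := fun t => p (e (Sum.inr t)) with ht
    have hfr : LinearIndependent K (fun l => (Q l).map (eval t)) := by
      rw [minor_frame hM]
      exact ⟨f', g', by rw [← hevE]; exact hp2⟩
    have hFano : spanMap K m n k ⟨_, hfr⟩ ∈ Fano K m n k r := hY.1.1 (hQY ⟨t, hfr, rfl⟩)
    have hmem : ∑ l, x l • ∑ l', p (e (Sum.inl (l, l'))) • (Q l').map (eval t) ∈
        (spanMap K m n k ⟨_, hfr⟩).1 := by
      refine Submodule.sum_mem _ fun l _ => Submodule.smul_mem _ _ (Submodule.sum_mem _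
        fun l' _ => Submodule.smul_mem _ _ (Submodule.subset_span ⟨l', rfl⟩))
    have hr := hFano _ hmem
    apply absurd hr
    rw [not_lt, hM]
    refine ⟨f, g, ?_⟩
    convert hp1 using 1
    rw [hD, RingHom.map_det]
    congr 1
    ext a b
    simp only [Matrix.submatrix_apply, Matrix.sum_apply, Matrix.smul_apply, Matrix.map_apply,
      RingHom.mapMatrix_apply, map_sum, map_mul, eval_C, eval_AP, smul_eq_mul]
    rfl
  · -- vanishing polynomials
    intro f hf M hMS
    have hf1 : aeval (fun s : Fin (k + 1) × Fin m × Fin n => AP e Q s.1 s.2.1 s.2.2) f = 0 := by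
      apply hinj
      rw [map_zero, ← hf]
      have := MvPolynomial.aeval_algebraMap_apply (R := K)
        (FractionRing (MvPolynomial (Fin N') K))
        (fun s : Fin (k + 1) × Fin m × Fin n => AP e Q s.1 s.2.1 s.2.2) f
      rw [← this]
      rfl
    have hcl := isClosed_cond (K := K) (m := m) (n := n) (k := k) f
    have hsub : image K m n k Q ⊆ {Λ : Gr K m n k | ∀ M : Frame K m n k, spanMap K m n k M = Λ →
      eval (fun s => M.1 s.1 s.2.1 s.2.2) f = 0} := by
      rintro Λ ⟨t, ht, rfl⟩ M' hM'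
      obtain ⟨g, hg, hgM⟩ := exists_coeff _ _ hM'
      set p : Fin N' → K := fun j => Sum.elim (fun s : Fin (k + 1) × Fin (k + 1) => g s.1 s.2) t
        (e.symm j) with hp
      have h1 : eval p (aeval (fun s : Fin (k + 1) × Fin m × Fin n =>
        AP e Q s.1 s.2.1 s.2.2) f) = 0 := by rw [hf1, map_zero]
      rw [← h1, ← coe_aeval_eq_eval, ← coe_aeval_eq_eval]
      simp only [RingHom.coe_coe]
      rw [← AlgHom.comp_apply, comp_aeval]
      congr 2
      funext s
      have h2 : (aeval p) (AP e Q s.1 s.2.1 s.2.2) = eval p (AP e Q s.1 s.2.1 s.2.2) := by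
        rw [← coe_aeval_eq_eval]
        rfl
      rw [h2, hgM, eval_AP]
      simp only [Matrix.sum_apply, Matrix.smul_apply, Matrix.map_apply, smul_eq_mul, hp,
        Equiv.symm_apply_apply, Sum.elim_inl, Sum.elim_inr]
    exact closure_minimal hsub hcl (hYc (hY0 ⟨M, hMS, rfl⟩)) M rfl

end Pool.Agent.H18.FS
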